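import Pool.Agent.TH942.OS.Up
import Pool.Agent.TH942.LS.Rank

/-!
# One-sided bounds for the means of an elliptic curve
-/

set_option autoImplicit false

open MeasureTheory Filter Topology Set Classical
open Pool.Agent.W263.BSD Pool.Agent.W189.ML Pool.Agent.W187.UR

namespace Pool.Agent.TH942.OS

open Pool.Agent.TH942.LS

/-- a one-sided Abelian theorem -/
theorem log_upper {f : ℝ → ℝ}
    (hint : ∀ t : ℝ, 0 < t → IntegrableOn (fun T : ℝ => Real.exp (-(t * T)) * f T) (Ioi 0))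
    {A ρ m C t₀ : ℝ} (hle : ∀ T, 0 < T → f T ≤ A + ρ * lgp T) (ht₀ : 0 < t₀)
    (hC : ∀ t : ℝ, 0 < t → t ≤ t₀ →
      |t * (∫ T in Ioi (0 : ℝ), Real.exp (-(t * T)) * f T) - m * Real.log (1 / t)| ≤ C) :
    m ≤ ρ := by
  by_contra hne
  push Not at hne
  set d : ℝ := m - ρ with hd
  have hd0 : 0 < d := by rw [hd]; linarith
  set G₀ : ℝ := 2 * Real.Gamma (1 / 2) + 1 with hG₀
  have hG0 : 0 < Real.Gamma (1 / 2) := Real.Gamma_pos_of_pos (by norm_num)
  have key : ∀ t : ℝ, 0 < t → t ≤ min t₀ 1 → d * Real.log (1 / t) ≤ C + |A| + |ρ| * G₀ := by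
    intro t ht ht1
    have ht2 : t ≤ t₀ := ht1.trans (min_le_left _ _)
    have ht3 : t ≤ 1 := ht1.trans (min_le_right _ _)
    have hi := lgp_int ht ht3
    have he := exp_int ht
    have hv := exp_val ht
    have hl := lgp_lap ht ht3
    have h1 : ∫ T in Ioi (0 : ℝ), Real.exp (-(t * T)) * f T ≤
        ∫ T in Ioi (0 : ℝ), (A * Real.exp (-(t * T)) + ρ * (Real.exp (-(t * T)) * lgp T)) := by
      refine setIntegral_mono_on (hint t ht) ((he.const_mul A).add (hi.const_mul ρ))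
        measurableSet_Ioi fun T hT => ?_
      have := mul_le_mul_of_nonneg_left (hle T hT) (Real.exp_pos (-(t * T))).le
      calc _ ≤ _ := this
        _ = _ := by ring
    rw [integral_add (he.const_mul A) (hi.const_mul ρ), integral_const_mul, integral_const_mul,
      hv] at h1
    have h2 := mul_le_mul_of_nonneg_left h1 ht.le
    have h3 : t * (A * (1 / t) + ρ * ∫ T in Ioi (0 : ℝ), Real.exp (-(t * T)) * lgp T) =
        A + ρ * (t * (∫ T in Ioi (0 : ℝ), Real.exp (-(t * T)) * lgp T) - Real.log (1 / t)) +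
        ρ * Real.log (1 / t) := by
      field_simp
      ring
    rw [h3] at h2
    have h4 := (abs_le.1 (hC t ht ht2)).1
    have h5 : ρ * (t * (∫ T in Ioi (0 : ℝ), Real.exp (-(t * T)) * lgp T) - Real.log (1 / t)) ≤
        |ρ| * G₀ := by
      refine (le_abs_self _).trans ?_
      rw [abs_mul]
      exact mul_le_mul_of_nonneg_left hl (abs_nonneg _)
    have h6 := le_abs_self A
    rw [hd]
    linarith
  set K : ℝ := |C| + |A| + |ρ| * G₀ with hK
  have hK0 : 0 ≤ K := by positivity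
  set x : ℝ := (K + 1) / d with hx
  set t : ℝ := min (min t₀ 1) (Real.exp (-x)) with ht
  have htp : 0 < t := lt_min (lt_min ht₀ one_pos) (Real.exp_pos _)
  have h1 := key t htp (min_le_left _ _)
  have h2 : x ≤ Real.log (1 / t) := by
    rw [one_div, Real.log_inv]
    have h3 : Real.log t ≤ -x := by
      have := Real.log_le_log htp (min_le_right (min t₀ 1) (Real.exp (-x)))
      rwa [Real.log_exp] at this
    linarith
  have h3 : d * x = K + 1 := by rw [hx]; field_simp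
  have h4 := mul_le_mul_of_nonneg_left h2 hd0.le
  have h5 := le_abs_self C
  linarith

variable {a b : ℤ} {F : ℂ → ℂ}

/-- one-sided bounds exclude zeros -/
theorem zero_free_upper (hF : IsLSeries a b F) {w : ℝ → ℝ} {W β : ℝ} (hw : Wt w W β)
    (hw0 : ∀ u, 0 ≤ w u) (htop : ∀ κ, κ < β → ¬ ∀ᵐ x, x ∈ Ioo κ β → w x = 0) {K : ℝ}
    (hU : ∀ᶠ T : ℝ in atTop, S lm (cE a b) w T ≤ K * T) :
    (∀ t : ℂ, 0 < t.re → DifferentiableAt ℂ (L lm (cE a b) w) t) ∧
    (∀ x : ℝ, 0 < x → LInt (S0 lm (cE a b) w) x) ∧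
    ∀ s : ℂ, 0 < s.re → PhiF a b F s ≠ 0 := by
  have hU' : ∀ α, β * 0 < α → ∃ C T₀ : ℝ, ∀ T, T₀ ≤ T →
      S lm (cE a b) w T ≤ C * Real.exp (α * T) := by
    intro α hα
    rw [mul_zero] at hα
    obtain ⟨T₀, hT₀⟩ := (hU.and (eventually_gt_atTop 0)).exists_forall_of_atTop
    refine ⟨|K| / α, T₀, fun T hT => ?_⟩
    obtain ⟨h1, h2⟩ := hT₀ T hT
    have h3 : α * T ≤ Real.exp (α * T) := by
      have := Real.add_one_le_exp (α * T)
      linarith
    calc S lm (cE a b) w T ≤ K * T := h1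
      _ ≤ |K| * T := mul_le_mul_of_nonneg_right (le_abs_self K) h2.le
      _ = |K| / α * (α * T) := by field_simp
      _ ≤ _ := by gcongr
  obtain ⟨h1, h2⟩ := upper (dat a b) hw hw0 (cont hF (θ := 0) le_rfl) htop hU'
  refine ⟨fun t ht => h1 t (by rwa [mul_zero]), fun x hx => ?_, h2⟩
  refine S0_conv (dat a b) hw hw0 (cont hF (θ := 0) le_rfl) (fun y hy => h2 y (by simpa using hy)) hU'
    (by rwa [mul_zero])

/-- **The order of vanishing is at most the constant of logarithmic growth.** -/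
theorem order_le (hF : IsLSeries a b F) {m : ℕ} (hm : analyticOrderAt F 1 = m) {w : ℝ → ℝ}
    {W β : ℝ} (hw : Wt w W β) (hw0 : ∀ u, 0 ≤ w u)
    (htop : ∀ κ, κ < β → ¬ ∀ᵐ x, x ∈ Ioo κ β → w x = 0)
    (hdini : IntegrableOn (fun u : ℝ => |w u - 1| / u) (Ioo 0 β)) {ρ : ℝ}
    (hU : ∀ ε : ℝ, 0 < ε → ∀ᶠ T : ℝ in atTop, S lm (cE a b) w T ≤ (ρ + ε) * Real.log T) :
    (∀ s : ℂ, 0 < s.re → PhiF a b F s ≠ 0) ∧ (m : ℝ) ≤ ρ := by
  have D := dat a b
  have H := cont hF (θ := 0) le_rfl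
  have hb := hw.b0
  have hlog : ∀ T : ℝ, 2 ≤ T → Real.log T ≤ T := fun T hT => by
    have := Real.log_le_sub_one_of_pos (by linarith : 0 < T)
    linarith
  obtain ⟨hL, hI, hne⟩ := zero_free_upper hF hw hw0 htop (K := |ρ + 1|) (by
    filter_upwards [hU 1 one_pos, eventually_ge_atTop 2] with T h1 h2
    have h3 : 0 ≤ Real.log T := Real.log_nonneg (by linarith)
    calc _ ≤ _ := h1
      _ ≤ |ρ + 1| * Real.log T := mul_le_mul_of_nonneg_right (le_abs_self _) h3
      _ ≤ _ := mul_le_mul_of_nonneg_left (hlog T h2) (abs_nonneg _))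
  refine ⟨hne, ?_⟩
  obtain ⟨CQ, hCQ⟩ := Qf_real_bound hF hne hm
  obtain ⟨C1, hC1⟩ := JE_large hF hne
  obtain ⟨C0, hC0⟩ := JE_small hF hne hm
  obtain ⟨C, hC⟩ := EE_asymp D hw H hne hCQ (J := JE a b F) (fun v hv => JE_deriv hF hne hv)
    (m := m) (CJ := max C1 C0) (fun v hv => (hC1 v hv).trans (le_max_left _ _))
    (fun v hv hv1 => (hC0 v hv hv1).trans (le_max_right _ _)) hdini
  refine le_of_forall_pos_le_add fun ε hε => ?_
  -- a bound on the whole half line
  obtain ⟨A, hA⟩ : ∃ A : ℝ, ∀ T, 0 < T → S lm (cE a b) w T ≤ A + (ρ + ε) * lgp T := by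
    obtain ⟨T₀, hT₀⟩ := (hU ε hε).exists_forall_of_atTop
    set T₁ : ℝ := max T₀ 2 with hT₁
    have hT12 : 2 ≤ T₁ := le_max_right _ _
    set C2 : ℝ := W * Real.exp (2 * β * T₁) * ∑' n, |cE a b n| * Real.exp (-(2 * lm n)) with hC2
    have hW := hw.W0
    have hs0 : 0 ≤ ∑' n, |cE a b n| * Real.exp (-(2 * lm n)) := tsum_nonneg fun n => by positivity
    have hC20 : 0 ≤ C2 := by positivity
    refine ⟨C2 + |ρ + ε| * lgp T₁, fun T hT => ?_⟩
    have hg := lgp_nonneg T
    have hg1 := lgp_nonneg T₁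
    have hg2 : 0 ≤ |ρ + ε| * lgp T₁ := mul_nonneg (abs_nonneg _) hg1
    rcases le_or_gt T T₁ with h2 | h2
    · have h3 := (le_abs_self _).trans (S_le D hw hT)
      have h4 : W * Real.exp (2 * β * T) * ∑' n, |cE a b n| * Real.exp (-(2 * lm n)) ≤ C2 := by
        rw [hC2]
        gcongr
      have h5 : lgp T ≤ lgp T₁ := by
        unfold lgp
        exact Real.log_le_log (lt_max_of_lt_right one_pos) (max_le_max_right _ h2)
      have h6 : -((ρ + ε) * lgp T) ≤ |ρ + ε| * lgp T₁ := by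
        calc -((ρ + ε) * lgp T) ≤ |(ρ + ε) * lgp T| := neg_le_abs _
          _ = |ρ + ε| * lgp T := by rw [abs_mul, abs_of_nonneg hg]
          _ ≤ _ := mul_le_mul_of_nonneg_left h5 (abs_nonneg _)
      linarith
    · have hT0 : T₀ ≤ T := (le_max_left _ _).trans h2.le
      have e1 : lgp T = Real.log T := by
        unfold lgp
        rw [max_eq_left (by linarith)]
      rw [e1]
      have := hT₀ T hT0
      linarith
  refine log_upper (f := S lm (cE a b) w) (fun t ht => ?_) hA hb (C := C) fun t ht htb => ?_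
  · refine (hI t ht).congr_fun (fun T hT => ?_) measurableSet_Ioi
    simp only
    unfold S0
    rw [if_pos (show 0 < T from hT), mul_comm]
  · have h1 := hC t ht htb
    rw [← L_real' D hw H hne hL ht] at h1
    have h2 : (t : ℂ) * L lm (cE a b) w t + ((m : ℝ) : ℂ) * Real.log t =
        ((t * (∫ T in Ioi (0 : ℝ), Real.exp (-(t * T)) * S lm (cE a b) w T) -
          m * Real.log (1 / t) : ℝ) : ℂ) := by
      unfold L
      have h3 : ∀ T : ℝ, Complex.exp (-((t : ℂ) * T)) * (S lm (cE a b) w T : ℂ) =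
          ((Real.exp (-(t * T)) * S lm (cE a b) w T : ℝ) : ℂ) := fun T => by push_cast; rfl
      simp only [h3]
      rw [integral_complex_ofReal, one_div, Real.log_inv]
      push_cast
      ring
    rw [h2, Complex.norm_real, Real.norm_eq_abs] at h1
    exact h1

end Pool.Agent.TH942.OS
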