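import Pool.Agent.TH942.OS.Gen
import Pool.Agent.TH942.OS.Hz
import Pool.Agent.TH942.LS.LogAb
import Pool.Agent.TH988.RB.Lan

/-!
# One-sided bounds for the means with nonnegative weights: the theorem of Landau
-/

set_option autoImplicit false

open MeasureTheory Filter Topology Set Complex

namespace Pool.Agent.TH942.OS

open Pool.Agent.TH942.LS
open Pool.Agent.W263.BSD (LInt lap)

variable {lam c : ℕ → ℝ} {δ σ W b θ : ℝ} {w : ℝ → ℝ} {Ψ Kf : ℂ → ℂ}

lemma re_analytic {f : ℂ → ℂ} {x : ℝ} (hf : AnalyticAt ℂ f x) :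
    AnalyticAt ℝ (fun x : ℝ => (f x).re) x := by
  have h1 : AnalyticAt ℝ f (x : ℂ) := hf.restrictScalars
  have h2 : AnalyticAt ℝ (fun x : ℝ => (x : ℂ)) x := Complex.ofRealCLM.analyticAt x
  have h3 : AnalyticAt ℝ (fun z : ℂ => z.re) (f x) := Complex.reCLM.analyticAt _
  exact AnalyticAt.fun_comp h3 (AnalyticAt.fun_comp h1 h2)

/-- the mean, extended by `0` -/
noncomputable def S0 (lam c : ℕ → ℝ) (w : ℝ → ℝ) (T : ℝ) : ℝ := if 0 < T then S lam c w T else 0

lemma S0_measurable (D : Dat lam c δ σ) (hw : Wt w W b) : Measurable (S0 lam c w) := by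
  refine measurable_of_tendsto_metrizable (f := fun (N : ℕ) T => if 0 < T then
    ∑ n ∈ Finset.range N, c n * w (lam n / T) else 0) (fun N => ?_) ?_
  · refine Measurable.ite (measurableSet_lt measurable_const measurable_id) ?_ measurable_const
    refine Finset.measurable_fun_sum _ fun n _ => ?_
    exact (hw.meas.comp (by fun_prop)).const_mul _
  · rw [tendsto_pi_nhds]
    intro T
    unfold S0
    by_cases hT : 0 < T
    · simp only [hT, if_true]
      exact (S_summable D hw hT).hasSum.tendsto_sum_nat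
    · simp only [hT, if_false]
      exact tendsto_const_nhds

lemma exp_L {α s : ℝ} (h : α < s) : LInt (fun T => Real.exp (α * T)) s ∧
    lap (fun T => Real.exp (α * T)) s = 1 / (s - α) := by
  have e : ∀ T : ℝ, Real.exp (α * T) * Real.exp (-(s * T)) = Real.exp (-((s - α) * T)) := fun T => by
    rw [← Real.exp_add]; congr 1; ring
  unfold Pool.Agent.W263.BSD.LInt Pool.Agent.W263.BSD.lap
  simp only [e]
  exact ⟨exp_int (by linarith), exp_val (by linarith)⟩

/-- an upper bound on the whole half line -/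
lemma upper_all (D : Dat lam c δ σ) (hw : Wt w W b) {α : ℝ} (hα : 0 < α)
    (hU : ∃ C T₀ : ℝ, ∀ T, T₀ ≤ T → S lam c w T ≤ C * Real.exp (α * T)) :
    ∃ A : ℝ, 0 ≤ A ∧ ∀ T, 0 < T → S lam c w T ≤ A * Real.exp (α * T) := by
  obtain ⟨C, T₀, hC⟩ := hU
  set C1 : ℝ := W * Real.exp (σ * b * |T₀|) * (∑' n, |c n| * Real.exp (-(σ * lam n))) with hC1
  have hW := hw.W0
  have hs0 : 0 ≤ ∑' n, |c n| * Real.exp (-(σ * lam n)) := tsum_nonneg fun n => by positivity
  have hC10 : 0 ≤ C1 := by positivity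
  refine ⟨max C1 |C|, by positivity, fun T hT => ?_⟩
  rcases le_total T₀ T with h | h
  · refine (hC T h).trans ?_
    have : C ≤ max C1 |C| := (le_abs_self C).trans (le_max_right _ _)
    gcongr
  · have h1 := (le_abs_self _).trans (S_le D hw hT)
    have hT0 : T ≤ |T₀| := h.trans (le_abs_self _)
    have h2 : σ * b * T ≤ σ * b * |T₀| :=
      mul_le_mul_of_nonneg_left hT0 (mul_nonneg D.σ0.le hw.b0.le)
    have h3 : 1 ≤ Real.exp (α * T) := Real.one_le_exp (by positivity)
    calc S lam c w T ≤ W * Real.exp (σ * b * T) * ∑' n, |c n| * Real.exp (-(σ * lam n)) := h1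
      _ ≤ C1 := by rw [hC1]; gcongr
      _ ≤ C1 * Real.exp (α * T) := le_mul_of_one_le_right hC10 h3
      _ ≤ _ := by
        gcongr
        exact le_max_left _ _

lemma S0_LInt (D : Dat lam c δ σ) (hw : Wt w W b) {s : ℝ} (hs : σ * b < s) :
    LInt (S0 lam c w) s := by
  set S₀ : ℝ := ∑' n, |c n| * Real.exp (-(σ * lam n)) with hS₀
  have h1 := ((exp_L hs).1.const_mul (W * S₀))
  refine Integrable.mono' h1 ?_ ?_
  · exact ((S0_measurable D hw).mul (by fun_prop)).aestronglyMeasurable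
  · filter_upwards [ae_restrict_mem measurableSet_Ioi] with T hT
    have hT0 : 0 < T := hT
    have h2 := S_le D hw hT0
    rw [Real.norm_eq_abs, abs_mul, abs_of_pos (Real.exp_pos _)]
    unfold S0
    rw [if_pos hT0]
    refine mul_le_mul_of_nonneg_right (h2.trans (le_of_eq ?_)) (Real.exp_pos _).le
    rw [← hS₀]
    ring

/-- the real Laplace transform -/
lemma S0_lap (D : Dat lam c δ σ) (hw : Wt w W b) (s : ℝ) :
    lap (S0 lam c w) s = (L lam c w s).re := by
  unfold Pool.Agent.W263.BSD.lap L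
  have h3 : ∀ T : ℝ, Complex.exp (-((s : ℂ) * T)) * (S lam c w T : ℂ) =
      ((Real.exp (-(s * T)) * S lam c w T : ℝ) : ℂ) := fun T => by push_cast; rfl
  simp only [h3]
  rw [integral_complex_ofReal, Complex.ofReal_re]
  refine setIntegral_congr_fun measurableSet_Ioi fun T hT => ?_
  unfold S0
  rw [if_pos (show 0 < T from hT), mul_comm]

/-- **Landau's theorem for the means.** -/
theorem landau_step (D : Dat lam c δ σ) (hw : Wt w W b) (hw0 : ∀ u, 0 ≤ w u)
    (H : Cont lam c σ θ Ψ Kf) {ξ : ℝ} (hξ : θ < ξ) (hξv : ∀ v : ℝ, 1 < v → Ψ (v * (ξ : ℂ)) ≠ 0)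
    {α : ℝ} (hα : 0 < α)
    (hU : ∃ C T₀ : ℝ, ∀ T, T₀ ≤ T → S lam c w T ≤ C * Real.exp (α * T)) :
    ∃ (m : ℕ) (κ A : ℝ), (Ψ ξ = 0 → 0 < m) ∧ 0 < κ ∧ κ < 1 ∧ 0 ≤ A ∧
      (∀ T, 0 < T → S0 lam c w T ≤ A * Real.exp (α * T)) ∧
      ∀ s : ℝ, max α (b * κ * ξ) < s →
        LInt (fun T => (A * Real.exp (α * T) - S0 lam c w T) +
          m * (if 0 < T then hz w b ξ T else 0)) s := by
  have hb := hw.b0
  have hξ0 : 0 < ξ := H.θ0.trans_lt hξ
  have hξc : (ξ : ℂ) ≠ 0 := by exact_mod_cast hξ0.ne'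
  have hξre : θ < (ξ : ℂ).re := by simpa using hξ
  obtain ⟨A, hA, hAu⟩ := upper_all D hw hα hU
  obtain ⟨κ, η, V, hκ, hκ1, hη, hη1, hV, hc1, hc2⟩ := exists_cone H D.σ0 hξre hξv
  obtain ⟨m, E, C, hm, hEd, hEeq, hC, hEb⟩ := exists_E' D H hξre hκ hη1 hV hc1 hc2
  obtain ⟨z1, z2, z3, -⟩ := hz_spec hw.meas hw0 (fun u => (le_abs_self _).trans (hw.bd u)) hb hξ0
  refine ⟨m, κ, A, hm, hκ, hκ1, hA, fun T hT => ?_, ?_⟩
  · unfold S0
    rw [if_pos hT]
    exact hAu T hT
  have hEE := EE_diff hw hκ hEd hC hEb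
  set F : ℝ → ℝ := fun T => if 0 < T then (A * Real.exp (α * T) - S0 lam c w T) + m * hz w b ξ T
    else 0 with hF
  set g : ℝ → ℝ := fun s => A / (s - α) - (EE w b E ((s : ℂ) / ξ)).re with hg
  -- properties of `F`
  have hFm : Measurable F := by
    refine Measurable.ite (measurableSet_lt measurable_const measurable_id) ?_ measurable_const
    exact ((by fun_prop : Measurable fun T : ℝ => A * Real.exp (α * T)).sub
      (S0_measurable D hw)).add (z1.const_mul _)
  have hF0 : ∀ T, 0 < T → 0 ≤ F T := by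
    intro T hT
    rw [hF]
    simp only [hT, if_true]
    have h1 : S0 lam c w T ≤ A * Real.exp (α * T) := by
      unfold S0
      rw [if_pos hT]
      exact hAu T hT
    have h2 := z2 T hT.le
    have h3 : (0 : ℝ) ≤ m := Nat.cast_nonneg m
    have := mul_nonneg h3 h2
    linarith
  -- analytic continuation
  have hga : ∀ s > max α (b * κ * ξ), AnalyticAt ℝ g s := by
    intro s hs
    have hs1 : α < s := (le_max_left _ _).trans_lt hs
    have hs2 : b * κ * ξ < s := (le_max_right _ _).trans_lt hs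
    have h1 : ((s : ℂ) / ξ) ∈ ocone (b * κ) η := by
      have e1 : ((s : ℂ) / ξ) = ((s / ξ : ℝ) : ℂ) := by push_cast; rfl
      have e2 : b * κ < s / ξ := by rw [lt_div_iff₀ hξ0]; exact hs2
      have e3 : 0 < s / ξ := lt_trans (by positivity) e2
      rw [e1]
      refine ⟨by simpa using e2, ?_⟩
      rw [Complex.ofReal_im, Complex.ofReal_re, abs_zero]
      positivity
    have h2 : AnalyticAt ℂ (EE w b E) ((s : ℂ) / ξ) := hEE.analyticAt ((ocone_open _ _).mem_nhds h1)
    have h3 : AnalyticAt ℂ (fun z : ℂ => EE w b E (z / ξ)) (s : ℂ) :=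
      AnalyticAt.fun_comp h2 (analyticAt_id.div_const)
    refine AnalyticAt.sub ?_ (re_analytic h3)
    exact analyticAt_const.div (analyticAt_id.sub analyticAt_const) (by
      have : 0 < s - α := by linarith
      exact this.ne')
  -- far away
  set w1 : ℝ := max (max α (σ * b)) (max (b * ξ) 0) with hw1
  have hfar : ∀ s > w1, LInt F s ∧ lap F s = g s := by
    intro s hs
    have hs1 : α < s := ((le_max_left _ _).trans (le_max_left _ _)).trans_lt hs
    have hs2 : σ * b < s := ((le_max_right _ _).trans (le_max_left _ _)).trans_lt hs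
    have hs3 : b * ξ < s := ((le_max_left _ _).trans (le_max_right _ _)).trans_lt hs
    have hs0 : 0 < s := ((le_max_right _ _).trans (le_max_right _ _)).trans_lt hs
    obtain ⟨a1, a2⟩ := exp_L hs1
    obtain ⟨c1, c2⟩ := z3 s hs3
    have i1 : LInt (fun T => A * Real.exp (α * T)) s := a1.const_mul A
    have i2 := S0_LInt D hw hs2
    have i3 : LInt (fun T => (m : ℝ) * hz w b ξ T) s :=
      Pool.Agent.W263.BSD.LInt.const_mul c1 (m : ℝ)
    have i4 := (i1.sub i2).add i3
    have e1 : ∀ T ∈ Ioi (0 : ℝ), F T * Real.exp (-(s * T)) =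
        ((A * Real.exp (α * T) - S0 lam c w T) + m * hz w b ξ T) * Real.exp (-(s * T)) := by
      intro T hT
      rw [hF]
      simp only [show 0 < T from hT, if_true]
    refine ⟨i4.congr_fun (fun T hT => (e1 T hT).symm) measurableSet_Ioi, ?_⟩
    have e2 : lap F s = lap (fun T => (A * Real.exp (α * T) - S0 lam c w T) + m * hz w b ξ T) s := by
      unfold Pool.Agent.W263.BSD.lap
      exact setIntegral_congr_fun measurableSet_Ioi e1
    rw [e2, Pool.Agent.W263.BSD.lap_add (i1.sub i2) i3, Pool.Agent.W263.BSD.lap_sub i1 i2]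
    have e3 : lap (fun T => A * Real.exp (α * T)) s = A / (s - α) := by
      have : lap (fun T => A * Real.exp (α * T)) s = A * lap (fun T => Real.exp (α * T)) s := by
        unfold Pool.Agent.W263.BSD.lap
        rw [← integral_const_mul]
        refine setIntegral_congr_fun measurableSet_Ioi fun T _ => ?_
        ring
      rw [this, a2]
      ring
    have e4 : lap (fun T => (m : ℝ) * hz w b ξ T) s =
        m * ∫ u in Ioo 0 b, w u * (ξ / (s * (s - u * ξ))) := by
      rw [← c2]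
      unfold Pool.Agent.W263.BSD.lap
      rw [← integral_const_mul]
      refine setIntegral_congr_fun measurableSet_Ioi fun T _ => ?_
      ring
    rw [e3, e4, S0_lap D hw]
    -- the transform
    have hsc : (s : ℂ) ≠ 0 := by exact_mod_cast hs0.ne'
    have hLre : b * σ < ((s : ℂ)).re := by
      rw [Complex.ofReal_re, mul_comm]
      exact hs2
    have hz' : ((s : ℂ) / ξ) ∈ ocone (b * κ) η := by
      have e1 : ((s : ℂ) / ξ) = ((s / ξ : ℝ) : ℂ) := by push_cast; rfl
      have e2 : b < s / ξ := by rw [lt_div_iff₀ hξ0]; exact hs3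
      have e3 : b * κ < s / ξ := by nlinarith
      have e4 : 0 < s / ξ := hb.trans e2
      rw [e1]
      refine ⟨by simpa using e3, ?_⟩
      rw [Complex.ofReal_im, Complex.ofReal_re, abs_zero]
      positivity
    have hterm : ∀ u ∈ Ioo 0 b, (w u : ℂ) * (((u ^ 2)⁻¹ : ℝ) * P lam c ((s : ℂ) / u)) =
        (w u : ℂ) * (((u ^ 2)⁻¹ : ℝ) * E ((s : ℂ) / ξ / u)) +
          ((m * (w u * (ξ / (s * (s - u * ξ)))) : ℝ) : ℂ) := by
      intro u hu
      have hu0 : 0 < u := hu.1
      have huc : (u : ℂ) ≠ 0 := by exact_mod_cast hu0.ne'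
      have h4 : σ < ((s : ℂ) / u).re := by
        rw [Complex.div_ofReal_re, Complex.ofReal_re, lt_div_iff₀ hu0]
        have := mul_lt_mul_of_pos_left hu.2 D.σ0
        linarith
      have h6 : u * ξ < s := lt_trans (mul_lt_mul_of_pos_right hu.2 hξ0) hs3
      have h6' : (s : ℂ) - u * ξ ≠ 0 := by
        have : s - u * ξ ≠ 0 := by linarith
        exact_mod_cast this
      have h5 : (s : ℂ) / ξ / u ≠ 1 := by
        intro h
        rw [div_eq_one_iff_eq huc, div_eq_iff hξc] at h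
        exact h6' (by rw [h]; ring)
      have h7 : (s : ℂ) / u = (s : ℂ) / ξ / u * ξ := by
        field_simp
      rw [H.eq _ h4, hEeq _ h5, ← h7]
      have h8 : (m : ℂ) / (ξ * ((s : ℂ) / ξ / u * ((s : ℂ) / ξ / u - 1))) =
          m * u ^ 2 * ξ / (s * (s - u * ξ)) := by
        have : (s : ℂ) / ξ / u - 1 = (s - u * ξ) / (ξ * u) := by field_simp
        rw [this]
        field_simp
      rw [h8]
      push_cast
      field_simp
      ring
    have hi1 : Integrable (fun u : ℝ => (w u : ℂ) * (((u ^ 2)⁻¹ : ℝ) * E ((s : ℂ) / ξ / u)))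
        (volume.restrict (Ioo 0 b)) := by
      obtain ⟨e1, e2⟩ := EE_int hw hκ hEd hC hEb hz'
      refine Integrable.mono' (integrable_const (W * C / (b * κ) ^ 2)) e2 ?_
      filter_upwards [ae_restrict_mem measurableSet_Ioo] with u hu
      exact e1 u hu
    have hi2 : Integrable (fun u : ℝ => m * (w u * (ξ / (s * (s - u * ξ)))))
        (volume.restrict (Ioo 0 b)) := by
      refine Integrable.mono' (integrable_const (m * (W * (ξ / (s * (s - b * ξ)))))) ?_ ?_
      · have := hw.meas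
        exact Measurable.aestronglyMeasurable (by fun_prop)
      · filter_upwards [ae_restrict_mem measurableSet_Ioo] with u hu
        have h6 : u * ξ < b * ξ := mul_lt_mul_of_pos_right hu.2 hξ0
        have h7 : 0 < s - u * ξ := by linarith
        have h8 : 0 < s - b * ξ := by linarith
        have hm0 : (0 : ℝ) ≤ m := Nat.cast_nonneg m
        have h9 := hw0 u
        have h10 : w u ≤ W := (le_abs_self _).trans (hw.bd u)
        have hW := hw.W0
        rw [Real.norm_eq_abs, abs_of_nonneg (by positivity)]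
        have h11 : ξ / (s * (s - u * ξ)) ≤ ξ / (s * (s - b * ξ)) := by
          apply div_le_div_of_nonneg_left hξ0.le (by positivity)
          exact mul_le_mul_of_nonneg_left (by linarith) hs0.le
        gcongr
    have hLs : L lam c w s = EE w b E ((s : ℂ) / ξ) +
        ((∫ u in Ioo 0 b, m * (w u * (ξ / (s * (s - u * ξ)))) : ℝ) : ℂ) := by
      have hadd := integral_add hi1 (hi2.ofReal (𝕜 := ℂ))
      rw [laplace D hw hLre, setIntegral_congr_fun measurableSet_Ioo hterm]
      refine hadd.trans ?_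
      congr 1
      exact integral_ofReal
    rw [hLs, Complex.add_re, Complex.ofReal_re, integral_const_mul, hg]
    ring
  obtain ⟨h1, -⟩ := Pool.Agent.TH988.RB.landau_lap hFm hF0 (a := max α (b * κ * ξ)) (w1 := w1)
    (fun s hs => (hfar s hs).1) (g := g) hga (fun s hs _ => (hfar s hs).2)
  intro s hs
  refine (h1 s hs).congr_fun (fun T hT => ?_) measurableSet_Ioi
  simp only [hF, show 0 < T from hT, if_true]

/-- no real zeros -/
theorem no_real_zeros (D : Dat lam c δ σ) (hw : Wt w W b) (hw0 : ∀ u, 0 ≤ w u)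
    (H : Cont lam c σ θ Ψ Kf) (htop : ∀ κ, κ < b → ¬ ∀ᵐ x, x ∈ Ioo κ b → w x = 0)
    (hU : ∀ α, b * θ < α → ∃ C T₀ : ℝ, ∀ T, T₀ ≤ T → S lam c w T ≤ C * Real.exp (α * T))
    {x : ℝ} (hx : θ < x) : Ψ x ≠ 0 := by
  intro h0
  have hb := hw.b0
  obtain ⟨r₁, hr1, hr2, hr3, hr4⟩ := outermost' H (s₀ := (x : ℂ)) (by simpa using hx) h0
  set ξ : ℝ := r₁ * x with hξ
  have hξc : (r₁ : ℂ) * x = (ξ : ℂ) := by rw [hξ]; push_cast; rfl
  rw [hξc] at hr2 hr3 hr4
  have hξ1 : θ < ξ := by simpa using hr2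
  have hξ0 : 0 < ξ := H.θ0.trans_lt hξ1
  have hbθ : b * θ < b * ξ := mul_lt_mul_of_pos_left hξ1 hb
  obtain ⟨α, hα1, hα2⟩ := exists_between (max_lt hbθ (mul_pos hb hξ0))
  have hα0 : 0 < α := (le_max_right _ _).trans_lt hα1
  obtain ⟨m, κ, A, hm, hκ, hκ1, hA, hAu, hL⟩ := landau_step D hw hw0 H hξ1 hr4 hα0
    (hU α ((le_max_left _ _).trans_lt hα1))
  have hm0 : 0 < m := hm hr3
  obtain ⟨z1, z2, z3, z4⟩ := hz_spec hw.meas hw0 (fun u => (le_abs_self _).trans (hw.bd u)) hb hξ0
  have h1 : max (α / ξ) (b * κ) < b := by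
    refine max_lt ?_ (by nlinarith)
    rwa [div_lt_iff₀ hξ0]
  obtain ⟨κ₁, h2, h3⟩ := exists_between h1
  have h4 : 0 < κ₁ := lt_of_lt_of_le (by positivity) ((le_max_right (α / ξ) (b * κ)).trans h2.le)
  refine z4 κ₁ h4 h3 (htop κ₁ h3) ?_
  have h5 : max α (b * κ * ξ) < κ₁ * ξ := by
    refine max_lt ?_ ?_
    · have := (le_max_left (α / ξ) (b * κ)).trans_lt h2
      rwa [div_lt_iff₀ hξ0] at this
    · exact mul_lt_mul_of_pos_right ((le_max_right _ _).trans_lt h2) hξ0
  refine Integrable.mono' (hL _ h5) ?_ ?_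
  · exact (z1.mul (by fun_prop)).aestronglyMeasurable
  · filter_upwards [ae_restrict_mem measurableSet_Ioi] with T hT
    have hT0 : 0 < T := hT
    have h6 := z2 T hT0.le
    have h7 := hAu T hT0
    have h8 : (1 : ℝ) ≤ m := by exact_mod_cast hm0
    rw [Real.norm_eq_abs, abs_mul, abs_of_pos (Real.exp_pos _), abs_of_nonneg h6, if_pos hT0]
    refine mul_le_mul_of_nonneg_right ?_ (Real.exp_pos _).le
    have := mul_le_mul_of_nonneg_right h8 h6
    linarith

/-- convergence of the Laplace transform -/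
theorem S0_conv (D : Dat lam c δ σ) (hw : Wt w W b) (hw0 : ∀ u, 0 ≤ w u)
    (H : Cont lam c σ θ Ψ Kf) (hne : ∀ x : ℝ, θ < x → Ψ x ≠ 0)
    (hU : ∀ α, b * θ < α → ∃ C T₀ : ℝ, ∀ T, T₀ ≤ T → S lam c w T ≤ C * Real.exp (α * T))
    {s : ℝ} (hs : b * θ < s) : LInt (S0 lam c w) s := by
  have hb := hw.b0
  have hθ := H.θ0
  have hs0 : 0 < s := lt_of_le_of_lt (by positivity) hs
  obtain ⟨ξ, hξ1, hξ2⟩ := exists_between (show θ < s / b by rw [lt_div_iff₀ hb]; linarith)
  have hξ0 : 0 < ξ := H.θ0.trans_lt hξ1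
  have hξ3 : b * ξ < s := by rw [lt_div_iff₀ hb] at hξ2; linarith
  obtain ⟨α, hα1, hα2⟩ := exists_between (max_lt hs hs0)
  have hα0 : 0 < α := (le_max_right _ _).trans_lt hα1
  obtain ⟨m, κ, A, hm, hκ, hκ1, hA, hAu, hL⟩ := landau_step D hw hw0 H hξ1
    (fun v hv => by
      have h1 : ((v : ℂ) * ξ) = ((v * ξ : ℝ) : ℂ) := by push_cast; rfl
      rw [h1]
      exact hne _ (by nlinarith)) hα0 (hU α ((le_max_left _ _).trans_lt hα1))
  obtain ⟨z1, z2, z3, z4⟩ := hz_spec hw.meas hw0 (fun u => (le_abs_self _).trans (hw.bd u)) hb hξ0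
  have h5 : max α (b * κ * ξ) < s := by
    refine max_lt hα2 ?_
    have : b * κ * ξ ≤ b * ξ := by
      have := mul_pos hb hξ0
      nlinarith
    linarith
  have i1 := hL s h5
  have i2 : LInt (fun T => A * Real.exp (α * T)) s := (exp_L hα2).1.const_mul A
  have i3 : LInt (fun T => (m : ℝ) * hz w b ξ T) s :=
    Pool.Agent.W263.BSD.LInt.const_mul (z3 s hξ3).1 (m : ℝ)
  refine ((i2.add i3).sub i1).congr_fun (fun T hT => ?_) measurableSet_Ioi
  simp only
  rw [if_pos (show 0 < T from hT)]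
  ring

/-- **One-sided bounds.** If a mean with a nonnegative weight is `≤ C exp ((b θ + ε) T)` for every
`ε > 0`, where `b` is the top of the support of the weight, then `Ψ` has no zeros with real
part larger than `θ`. -/
theorem upper (D : Dat lam c δ σ) (hw : Wt w W b) (hw0 : ∀ u, 0 ≤ w u)
    (H : Cont lam c σ θ Ψ Kf) (htop : ∀ κ, κ < b → ¬ ∀ᵐ x, x ∈ Ioo κ b → w x = 0)
    (hU : ∀ α, b * θ < α → ∃ C T₀ : ℝ, ∀ T, T₀ ≤ T → S lam c w T ≤ C * Real.exp (α * T)) :
    (∀ t : ℂ, b * θ < t.re → DifferentiableAt ℂ (L lam c w) t) ∧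
    ∀ s : ℂ, θ < s.re → Ψ s ≠ 0 := by
  have hne : ∀ x : ℝ, θ < x → Ψ x ≠ 0 := fun x hx => no_real_zeros D hw hw0 H htop hU hx
  have hL : ∀ t : ℂ, b * θ < t.re → DifferentiableAt ℂ (L lam c w) t := by
    intro t ht
    refine lap_diff (S_meas D hw) (fun x hx => ?_) ht
    refine (S0_conv D hw hw0 H hne hU hx).congr_fun (fun T hT => ?_) measurableSet_Ioi
    simp only
    unfold S0
    rw [if_pos (show 0 < T from hT)]
  exact ⟨hL, fun s hs => no_zeros' D hw H htop hL hs⟩

end Pool.Agent.TH942.OS
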